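import Pool.Agent.H85.KS2.Targets
import Pool.Agent.H39.VQ.Final

/-!
# Board ks2_modules, row VIN: the mean value from Vinogradov's mean value theorem
-/

set_option autoImplicit false

open scoped BigOperators
open Filter Topology
open Pool.Agent.H98.KS Pool.Agent.H85.KS2

namespace Pool.Agent.H10.KS2

/-! ### counting -/

theorem cs_count {α β : Type} [DecidableEq β] [AddCommGroup β] (X : Finset α)
    (Φ : α → β) (m : β) : ((X ×ˢ X).filter fun p => Φ p.1 - Φ p.2 = m).card ≤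
      ((X ×ˢ X).filter fun p => Φ p.1 = Φ p.2).card := by
  classical
  have key : ∀ m : β, ((X ×ˢ X).filter fun p => Φ p.1 - Φ p.2 = m).card =
      ∑ b ∈ X.image Φ, (X.filter fun a => Φ a = b + m).card * (X.filter fun a => Φ a = b).card := by
    intro m
    rw [Finset.card_eq_sum_card_fiberwise (f := fun p => Φ p.2) (t := X.image Φ)]
    · refine Finset.sum_congr rfl fun b _ => ?_
      rw [← Finset.card_product]
      congr 1
      ext p
      simp only [Finset.mem_filter, Finset.mem_product]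
      constructor
      · rintro ⟨⟨⟨h1, h2⟩, h3⟩, h4⟩
        refine ⟨⟨h1, ?_⟩, h2, h4⟩
        rw [← h3, ← h4]
        abel
      · rintro ⟨⟨h1, h3⟩, h2, h4⟩
        refine ⟨⟨⟨h1, h2⟩, ?_⟩, h4⟩
        rw [h3, h4]
        abel
    · intro p hp
      have hp' := (Finset.mem_filter.1 (Finset.mem_coe.1 hp)).1
      exact Finset.mem_coe.2 (Finset.mem_image_of_mem _ (Finset.mem_product.1 hp').2)
  have k0 : ((X ×ˢ X).filter fun p => Φ p.1 = Φ p.2).card =
      ∑ b ∈ X.image Φ, (X.filter fun a => Φ a = b).card ^ 2 := by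
    have h0 := key 0
    have e : ((X ×ˢ X).filter fun p => Φ p.1 - Φ p.2 = 0) =
        (X ×ˢ X).filter fun p => Φ p.1 = Φ p.2 := by
      ext p
      simp only [Finset.mem_filter, sub_eq_zero]
    rw [e] at h0
    rw [h0]
    refine Finset.sum_congr rfl fun b _ => ?_
    rw [add_zero, sq]
  rw [key m, k0]
  have h1 : ∀ b ∈ X.image Φ, 2 * ((X.filter fun a => Φ a = b + m).card *
      (X.filter fun a => Φ a = b).card) ≤ (X.filter fun a => Φ a = b + m).card ^ 2 +
        (X.filter fun a => Φ a = b).card ^ 2 := by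
    intro b _
    have := two_mul_le_add_sq (X.filter fun a => Φ a = b + m).card
      (X.filter fun a => Φ a = b).card
    linarith
  have h2 := Finset.sum_le_sum h1
  rw [← Finset.mul_sum, Finset.sum_add_distrib] at h2
  have h3 : ∑ b ∈ X.image Φ, (X.filter fun a => Φ a = b + m).card ^ 2 ≤
      ∑ b ∈ X.image Φ, (X.filter fun a => Φ a = b).card ^ 2 := by
    have e1 : ∑ b ∈ X.image Φ, (X.filter fun a => Φ a = b + m).card ^ 2 =
        ∑ b ∈ (X.image Φ).image (fun b => b + m), (X.filter fun a => Φ a = b).card ^ 2 :=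
      (Finset.sum_image (f := fun b => (X.filter fun a => Φ a = b).card ^ 2)
        fun a _ b _ h => add_right_cancel h).symm
    rw [e1]
    calc ∑ b ∈ (X.image Φ).image (fun b => b + m), (X.filter fun a => Φ a = b).card ^ 2
        = ∑ b ∈ ((X.image Φ).image (fun b => b + m)).filter (fun b => b ∈ X.image Φ),
          (X.filter fun a => Φ a = b).card ^ 2 := by
          symm
          refine Finset.sum_filter_of_ne fun b _ hb => ?_
          have : (X.filter fun a => Φ a = b).card ≠ 0 := fun h0 => hb (by rw [h0]; rfl)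
          obtain ⟨a, ha⟩ := Finset.card_pos.1 (Nat.pos_of_ne_zero this)
          rw [Finset.mem_filter] at ha
          rw [← ha.2]
          exact Finset.mem_image_of_mem _ ha.1
      _ ≤ _ := by
          refine Finset.sum_le_sum_of_subset ?_
          intro b hb
          exact (Finset.mem_filter.1 hb).2
  omega

/-! ### moments -/

/-- the moments -/
def mom (s : ℕ) (x : Fin s → ℤ) (l : ℕ) : ℤ := ∑ i, x i ^ l

/-- the vector of the moments -/
def Mom (s n : ℕ) (x : Fin s → ℤ) (j : Fin n) : ℤ := mom s x (j.val + 1)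

theorem dl_sum (n : ℕ) (h u : ℤ) : dl (n + 1) h u =
    ∑ l ∈ Finset.range (n + 1), u ^ l * h ^ (n + 1 - l) * ((n + 1).choose l : ℤ) := by
  unfold dl
  rw [add_pow, Finset.sum_range_succ]
  simp

theorem mom_dl (s n : ℕ) (h : ℤ) (x : Fin s → ℤ) : ∑ i, dl (n + 1) h (x i) =
    ∑ l ∈ Finset.range (n + 1), mom s x l * h ^ (n + 1 - l) * ((n + 1).choose l : ℤ) := by
  simp only [dl_sum, mom]
  rw [Finset.sum_comm]
  refine Finset.sum_congr rfl fun l _ => ?_
  rw [Finset.sum_mul, Finset.sum_mul]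

/-- the last moment is determined by the others -/
theorem det {s n : ℕ} (hn : 1 ≤ n) {h : ℤ} (hh : h ≠ 0) {x y x' y' : Fin s → ℤ}
    (e : ∑ i, dl (n + 1) h (x i) = ∑ i, dl (n + 1) h (y i))
    (e' : ∑ i, dl (n + 1) h (x' i) = ∑ i, dl (n + 1) h (y' i))
    (hm : ∀ j : Fin (n - 1), Mom s (n - 1) x j - Mom s (n - 1) y j =
      Mom s (n - 1) x' j - Mom s (n - 1) y' j) :
    Mom s n x - Mom s n y = Mom s n x' - Mom s n y' := by
  rw [mom_dl, mom_dl, Finset.sum_range_succ, Finset.sum_range_succ] at e e'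
  have hl : ∀ l, l < n → mom s x l - mom s y l = mom s x' l - mom s y' l := by
    intro l hl
    rcases Nat.eq_zero_or_pos l with rfl | h0
    · simp [mom]
    · have := hm ⟨l - 1, by omega⟩
      simp only [Mom] at this
      rwa [Nat.sub_add_cancel h0] at this
  have hs : ∑ l ∈ Finset.range n, mom s x l * h ^ (n + 1 - l) * ((n + 1).choose l : ℤ) -
      ∑ l ∈ Finset.range n, mom s y l * h ^ (n + 1 - l) * ((n + 1).choose l : ℤ) =
      ∑ l ∈ Finset.range n, mom s x' l * h ^ (n + 1 - l) * ((n + 1).choose l : ℤ) -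
      ∑ l ∈ Finset.range n, mom s y' l * h ^ (n + 1 - l) * ((n + 1).choose l : ℤ) := by
    rw [← Finset.sum_sub_distrib, ← Finset.sum_sub_distrib]
    refine Finset.sum_congr rfl fun l hl' => ?_
    have := hl l (Finset.mem_range.1 hl')
    linear_combination h ^ (n + 1 - l) * ((n + 1).choose l : ℤ) * this
  have hc : h ^ (n + 1 - n) * ((n + 1).choose n : ℤ) ≠ 0 := by
    refine mul_ne_zero (pow_ne_zero _ hh) ?_
    have : (n + 1).choose n ≠ 0 := (Nat.choose_pos (by omega)).ne'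
    exact_mod_cast this
  have hlast : mom s x n - mom s y n = mom s x' n - mom s y' n := by
    have h3 : (mom s x n - mom s y n) * (h ^ (n + 1 - n) * ((n + 1).choose n : ℤ)) =
        (mom s x' n - mom s y' n) * (h ^ (n + 1 - n) * ((n + 1).choose n : ℤ)) := by
      linear_combination e - e' - hs
    exact mul_right_cancel₀ hc h3
  funext j
  simp only [Pi.sub_apply, Mom]
  by_cases hj : j.val + 1 < n
  · exact hl _ hj
  · have : j.val + 1 = n := by omega
    rw [this]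
    exact hlast

theorem mom_bd {s L l : ℕ} {x : Fin s → ℤ} (hx : ∀ i, x i ∈ JJ L) :
    |mom s x l| ≤ s * (8 * (L : ℤ)) ^ l := by
  unfold mom
  refine (Finset.abs_sum_le_sum_abs _ _).trans ?_
  calc ∑ i, |x i ^ l| ≤ ∑ _i : Fin s, (8 * (L : ℤ)) ^ l := by
        refine Finset.sum_le_sum fun i _ => ?_
        rw [abs_pow]
        have h1 := hx i
        rw [JJ, Finset.mem_Icc] at h1
        exact pow_le_pow_left₀ (abs_nonneg _) (abs_le.2 h1) _
    _ = _ := by simp

/-- translation -/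
theorem mom_tr {s n : ℕ} {x y : Fin s → ℤ} (h : Mom s n x = Mom s n y) (t : ℤ) {l : ℕ}
    (hl : l ≤ n) : ∑ i, (x i + t) ^ l = ∑ i, (y i + t) ^ l := by
  have e : ∀ x : Fin s → ℤ, ∑ i, (x i + t) ^ l =
      ∑ m ∈ Finset.range (l + 1), mom s x m * t ^ (l - m) * (l.choose m : ℤ) := by
    intro x
    simp only [add_pow, mom]
    rw [Finset.sum_comm]
    refine Finset.sum_congr rfl fun m _ => ?_
    rw [Finset.sum_mul, Finset.sum_mul]
  rw [e, e]
  refine Finset.sum_congr rfl fun m hm => ?_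
  rw [Finset.mem_range] at hm
  have : mom s x m = mom s y m := by
    rcases Nat.eq_zero_or_pos m with rfl | h0
    · simp [mom]
    · have := congrFun h ⟨m - 1, by omega⟩
      simp only [Mom] at this
      rwa [Nat.sub_add_cancel h0] at this
  rw [this]

/-- the box -/
noncomputable def XX (s L : ℕ) : Finset (Fin s → ℤ) := Fintype.piFinset fun _ : Fin s => JJ L

theorem mem_XX {s L : ℕ} {x : Fin s → ℤ} : x ∈ XX s L ↔ ∀ i, x i ∈ JJ L := Fintype.mem_piFinset

theorem E0_le (s n L : ℕ) :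
    (((XX s L) ×ˢ (XX s L)).filter fun p => Mom s n p.1 = Mom s n p.2).card ≤
      (Pool.Agent.H11.CV.sols s n (16 * L + 1)).card := by
  refine Finset.card_le_card_of_injOn
    (fun p => (fun i => (p.1 i + (8 * L + 1)).toNat, fun i => (p.2 i + (8 * L + 1)).toNat)) ?_ ?_
  · intro p hp
    have hp' := Finset.mem_filter.1 (Finset.mem_coe.1 hp)
    have hp1 := mem_XX.1 (Finset.mem_product.1 hp'.1).1
    have hp2 := mem_XX.1 (Finset.mem_product.1 hp'.1).2
    have b : ∀ u : ℤ, u ∈ JJ L → 1 ≤ (u + (8 * L + 1)).toNat ∧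
        (u + (8 * L + 1)).toNat ≤ 16 * L + 1 ∧ (((u + (8 * L + 1)).toNat : ℕ) : ℤ) =
          u + (8 * L + 1) := by
      intro u hu
      rw [JJ, Finset.mem_Icc] at hu
      omega
    refine Finset.mem_coe.2 (Finset.mem_filter.2 ⟨Finset.mem_product.2 ⟨?_, ?_⟩, ?_⟩)
    · exact Fintype.mem_piFinset.2 fun i => Finset.mem_Icc.2 ⟨(b _ (hp1 i)).1, (b _ (hp1 i)).2.1⟩
    · exact Fintype.mem_piFinset.2 fun i => Finset.mem_Icc.2 ⟨(b _ (hp2 i)).1, (b _ (hp2 i)).2.1⟩
    · intro j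
      have h1 := mom_tr hp'.2 (8 * L + 1) (l := j.val + 1) (by omega)
      have h2 : ((∑ i, (p.1 i + (8 * L + 1)).toNat ^ (j.val + 1) : ℕ) : ℤ) =
          ((∑ i, (p.2 i + (8 * L + 1)).toNat ^ (j.val + 1) : ℕ) : ℤ) := by
        push_cast
        have e1 : ∀ i, (((p.1 i + (8 * L + 1)).toNat : ℕ) : ℤ) = p.1 i + (8 * L + 1) :=
          fun i => (b _ (hp1 i)).2.2
        have e2 : ∀ i, (((p.2 i + (8 * L + 1)).toNat : ℕ) : ℤ) = p.2 i + (8 * L + 1) :=
          fun i => (b _ (hp2 i)).2.2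
        simp only [e1, e2]
        exact h1
      exact_mod_cast h2
  · intro p hp q hq hpq
    have hp' := (Finset.mem_filter.1 (Finset.mem_coe.1 hp)).1
    have hq' := (Finset.mem_filter.1 (Finset.mem_coe.1 hq)).1
    have hp1 := mem_XX.1 (Finset.mem_product.1 hp').1
    have hp2 := mem_XX.1 (Finset.mem_product.1 hp').2
    have hq1 := mem_XX.1 (Finset.mem_product.1 hq').1
    have hq2 := mem_XX.1 (Finset.mem_product.1 hq').2
    have b : ∀ u v : ℤ, u ∈ JJ L → v ∈ JJ L →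
        (u + (8 * L + 1)).toNat = (v + (8 * L + 1)).toNat → u = v := by
      intro u v hu hv h
      rw [JJ, Finset.mem_Icc] at hu hv
      omega
    have h1 := congrArg Prod.fst hpq
    have h2 := congrArg Prod.snd hpq
    refine Prod.ext (funext fun i => ?_) (funext fun i => ?_)
    · exact b _ _ (hp1 i) (hq1 i) (congrFun h1 i)
    · exact b _ _ (hp2 i) (hq2 i) (congrFun h2 i)

theorem rr_le {n : ℕ} (hn : 1 ≤ n) (s L : ℕ) {h : ℤ} (hh : h ≠ 0) :
    rr s (JJ L) (dl (n + 1) h) ≤ (Pool.Agent.H11.CV.sols s n (16 * L + 1)).card *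
      ∏ j : Fin (n - 1), (4 * s * (8 * L) ^ (j.val + 1) + 1) := by
  classical
  set P := ((XX s L) ×ˢ (XX s L)).filter fun p =>
    ∑ i, dl (n + 1) h (p.1 i) = ∑ i, dl (n + 1) h (p.2 i) with hP
  have e0 : rr s (JJ L) (dl (n + 1) h) = P.card := rfl
  rw [e0]
  set B : Finset (Fin (n - 1) → ℤ) := Fintype.piFinset fun j : Fin (n - 1) =>
    Finset.Icc (-(2 * s * (8 * (L : ℤ)) ^ (j.val + 1))) (2 * s * (8 * (L : ℤ)) ^ (j.val + 1)) with hB
  have hBc : B.card = ∏ j : Fin (n - 1), (4 * s * (8 * L) ^ (j.val + 1) + 1) := by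
    rw [hB, Fintype.card_piFinset]
    refine Finset.prod_congr rfl fun j _ => ?_
    rw [Int.card_Icc]
    have : (2 * s * (8 * (L : ℤ)) ^ (j.val + 1) + 1 - -(2 * s * (8 * (L : ℤ)) ^ (j.val + 1))) =
        ((4 * s * (8 * L) ^ (j.val + 1) + 1 : ℕ) : ℤ) := by
      push_cast
      ring
    rw [this, Int.toNat_natCast]
  rw [← hBc]
  refine Finset.card_le_mul_card_image_of_maps_to (f := fun p : (Fin s → ℤ) × (Fin s → ℤ) =>
    fun j : Fin (n - 1) => Mom s (n - 1) p.1 j - Mom s (n - 1) p.2 j) ?_ _ ?_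
  · intro p hp
    rw [hP, Finset.mem_filter] at hp
    have hp1 := mem_XX.1 (Finset.mem_product.1 hp.1).1
    have hp2 := mem_XX.1 (Finset.mem_product.1 hp.1).2
    rw [hB, Fintype.mem_piFinset]
    intro j
    have h1 := abs_le.1 (mom_bd (l := j.val + 1) hp1)
    have h2 := abs_le.1 (mom_bd (l := j.val + 1) hp2)
    simp only [Finset.mem_Icc, Mom]
    constructor <;> linarith
  · intro b _
    refine le_trans ?_ (E0_le s n L)
    by_cases hne : (P.filter fun p => (fun j : Fin (n - 1) => Mom s (n - 1) p.1 j -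
        Mom s (n - 1) p.2 j) = b).Nonempty
    · obtain ⟨p0, hp0⟩ := hne
      refine le_trans (Finset.card_le_card ?_) (cs_count (XX s L) (Mom s n)
        (Mom s n p0.1 - Mom s n p0.2))
      intro p hp
      rw [Finset.mem_filter, hP, Finset.mem_filter] at hp hp0
      refine Finset.mem_filter.2 ⟨hp.1.1, ?_⟩
      refine det hn hh hp.1.2 hp0.1.2 fun j => ?_
      have h1 := congrFun hp.2 j
      have h2 := congrFun hp0.2 j
      exact h1.trans h2.symm
    · rw [Finset.not_nonempty_iff_eq_empty] at hne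
      rw [hne]
      simp

/-! ### sizes -/

theorem exp_bd {a : ℝ} (ha1 : a < 1) (C ε : ℝ) (hε : 0 < ε) : ∃ K : ℝ, 0 < K ∧ ∀ N : ℕ, 3 ≤ N →
    Real.exp (C * Real.log N ^ a * Real.log (Real.log N) ^ 2) ≤ K * (N : ℝ) ^ ε := by
  obtain ⟨b, hb⟩ : ∃ b : ℝ, b = (1 - a) / 4 := ⟨_, rfl⟩
  have hb0 : 0 < b := by rw [hb]; linarith
  obtain ⟨D, hD⟩ : ∃ D : ℝ, D = |C| / b ^ 2 := ⟨_, rfl⟩
  have hD0 : 0 ≤ D := by rw [hD]; positivity
  obtain ⟨δ, hδ⟩ : ∃ δ : ℝ, δ = ε / (D + 1) := ⟨_, rfl⟩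
  have hδ0 : 0 < δ := by rw [hδ]; positivity
  have hy : 0 < 1 - (a + 2 * b) := by rw [hb]; linarith
  have hT := (tendsto_rpow_neg_atTop hy).eventually (gt_mem_nhds hδ0)
  obtain ⟨T, hT⟩ := eventually_atTop.1 hT
  refine ⟨Real.exp (D * |T|), Real.exp_pos _, fun N hN => ?_⟩
  have hN0 : (3 : ℝ) ≤ N := by exact_mod_cast hN
  have ht1 : 1 ≤ Real.log N := by
    rw [Real.le_log_iff_exp_le (by linarith)]
    have := Real.exp_one_lt_d9
    linarith
  obtain ⟨t, ht⟩ : ∃ t : ℝ, t = Real.log N := ⟨_, rfl⟩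
  rw [← ht] at ht1 ⊢
  have ht0 : 0 < t := by linarith
  have hl0 : 0 ≤ Real.log t := Real.log_nonneg ht1
  have hl1 : Real.log t ≤ t ^ b / b := Real.log_le_rpow_div ht0.le hb0
  have hl2 : Real.log t ^ 2 ≤ t ^ (2 * b) / b ^ 2 := by
    have h1 := pow_le_pow_left₀ hl0 hl1 2
    have h2 : (t ^ b / b) ^ 2 = t ^ (2 * b) / b ^ 2 := by
      rw [div_pow, ← Real.rpow_natCast (t ^ b) 2, ← Real.rpow_mul ht0.le]
      norm_num
      ring_nf
    rwa [h2] at h1
  have hta : 0 < t ^ a := Real.rpow_pos_of_pos ht0 _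
  have h3 : C * t ^ a * Real.log t ^ 2 ≤ D * t ^ (a + 2 * b) := by
    calc C * t ^ a * Real.log t ^ 2 ≤ |C| * t ^ a * Real.log t ^ 2 := by
          have := le_abs_self C
          gcongr
      _ ≤ |C| * t ^ a * (t ^ (2 * b) / b ^ 2) := by gcongr
      _ = D * t ^ (a + 2 * b) := by
          rw [Real.rpow_add ht0, hD]
          ring
  have h4 : t ^ (a + 2 * b) ≤ δ * t + |T| := by
    rcases le_or_gt T t with h | h
    · have h5 := hT t h
      have h6 : t ^ (a + 2 * b) = t * t ^ (-(1 - (a + 2 * b))) := by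
        nth_rw 2 [← Real.rpow_one t]
        rw [← Real.rpow_add ht0]
        congr 1
        ring
      rw [h6]
      have := mul_le_mul_of_nonneg_left h5.le ht0.le
      have := abs_nonneg T
      linarith
    · have h5 : t ^ (a + 2 * b) ≤ t := by
        have := Real.rpow_le_rpow_of_exponent_le ht1 (show a + 2 * b ≤ 1 by linarith)
        rwa [Real.rpow_one] at this
      have := le_abs_self T
      have := mul_pos hδ0 ht0
      linarith
  have h7 : D * δ ≤ ε := by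
    rw [hδ, ← mul_div_assoc, div_le_iff₀ (by linarith)]
    nlinarith
  have h8 : C * t ^ a * Real.log t ^ 2 ≤ D * |T| + t * ε := by
    have := mul_le_mul_of_nonneg_left h4 hD0
    have := mul_le_mul_of_nonneg_right h7 ht0.le
    nlinarith
  have h9 : (N : ℝ) ^ ε = Real.exp (t * ε) := by
    rw [ht, Real.rpow_def_of_pos (by linarith)]
  rw [h9, ← Real.exp_add]
  exact Real.exp_le_exp.2 h8

theorem prod_bd (m s : ℕ) (hs : 1 ≤ s) : ∃ C : ℝ, 0 < C ∧ ∀ L : ℕ, 1 ≤ L →
    ((∏ j : Fin m, (4 * s * (8 * L) ^ (j.val + 1) + 1) : ℕ) : ℝ) ≤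
      C * (L : ℝ) ^ (∑ j : Fin m, (j.val + 1)) := by
  have hs' : (1 : ℝ) ≤ s := by exact_mod_cast hs
  refine ⟨∏ j : Fin m, (5 * s * 8 ^ (j.val + 1) : ℝ), ?_, fun L hL => ?_⟩
  · exact Finset.prod_pos fun j _ => by positivity
  rw [← Finset.prod_pow_eq_pow_sum, ← Finset.prod_mul_distrib]
  push_cast
  have hL' : (1 : ℝ) ≤ L := by exact_mod_cast hL
  refine Finset.prod_le_prod (fun _ _ => by positivity) fun j _ => ?_
  have h2 : (1 : ℝ) ≤ 8 ^ (j.val + 1) := one_le_pow₀ (by norm_num)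
  have h3 : (1 : ℝ) ≤ (L : ℝ) ^ (j.val + 1) := one_le_pow₀ hL'
  have h4 : (1 : ℝ) ≤ s * (8 ^ (j.val + 1) * (L : ℝ) ^ (j.val + 1)) :=
    one_le_mul_of_one_le_of_one_le hs' (one_le_mul_of_one_le_of_one_le h2 h3)
  rw [mul_pow]
  linarith

theorem sum_fin (m : ℕ) : 2 * ∑ j : Fin m, (j.val + 1) = m * (m + 1) := by
  induction m with
  | zero => simp
  | succ m ih =>
    rw [Fin.sum_univ_castSucc]
    simp only [Fin.val_castSucc, Fin.val_last]
    rw [mul_add, ih]
    ring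

theorem ks2_VIN : T_VIN := by
  intro k hk ε hε
  obtain ⟨m, rfl⟩ : ∃ m, k = m + 2 := ⟨k - 2, by omega⟩
  obtain ⟨s, hs⟩ : ∃ s : ℕ, s = (m + 2) * (m + 2 - 1) / 2 := ⟨_, rfl⟩
  have hs2 : 2 * s = (m + 1) * (m + 2) := by
    have h1 : Even ((m + 2) * (m + 2 - 1)) := Nat.even_mul_pred_self _
    have h2 := Nat.two_mul_div_two_of_even h1
    rw [hs, h2]
    have : m + 2 - 1 = m + 1 := rfl
    rw [this]
    ring
  have hsN : (m + 1) * (m + 1 + 1) / 2 = s := by
    rw [hs]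
    have : (m + 2) * (m + 2 - 1) = (m + 1) * (m + 1 + 1) := by
      have : m + 2 - 1 = m + 1 := rfl
      rw [this]
      ring
    rw [this]
  have hs1 : 1 ≤ s := by nlinarith
  rw [← hs]
  obtain ⟨C0, hC0⟩ := Pool.Agent.H39.VQ.v_FN (m + 1) (by omega)
  rw [hsN] at hC0
  have ha1 : (((m + 1 : ℕ) : ℝ) - 3) / (((m + 1 : ℕ) : ℝ) - 2) < 1 := by
    have h1 : (2 : ℝ) ≤ m := by
      have : 2 ≤ m := by omega
      exact_mod_cast this
    push_cast
    rw [div_lt_one (by linarith)]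
    linarith
  obtain ⟨K, hK, hK'⟩ := exp_bd ha1 C0 ε hε
  obtain ⟨C1, hC1, hC1'⟩ := prod_bd m s hs1
  have hexp : (∑ j : Fin m, (j.val + 1)) + s = (m + 1) ^ 2 := by
    have := sum_fin m
    nlinarith
  refine ⟨17 ^ s * K * (17 : ℝ) ^ ε * C1, by positivity, fun L hL h hh => ?_⟩
  have hh0 : h ≠ 0 := (Finset.mem_erase.1 hh).1
  have h1 := rr_le (n := m + 1) (by omega) s L hh0
  have h1' : (rr s (JJ L) (dl (m + 1 + 1) h) : ℝ) ≤
      ((Pool.Agent.H11.CV.sols s (m + 1) (16 * L + 1)).card : ℝ) *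
        ((∏ j : Fin m, (4 * s * (8 * L) ^ (j.val + 1) + 1) : ℕ) : ℝ) := by exact_mod_cast h1
  have hL1 : (1 : ℝ) ≤ L := by exact_mod_cast hL
  have hL0 : (0 : ℝ) < L := by linarith
  have hN : ((16 * L + 1 : ℕ) : ℝ) ≤ 17 * L := by
    push_cast
    linarith
  have h2 : ((Pool.Agent.H11.CV.sols s (m + 1) (16 * L + 1)).card : ℝ) ≤
      (17 ^ s * K * (17 : ℝ) ^ ε) * ((L : ℝ) ^ s * (L : ℝ) ^ ε) := by
    refine (hC0 (16 * L + 1) (by omega)).trans ?_
    calc (((16 * L + 1 : ℕ) : ℝ)) ^ s * Real.exp (C0 * Real.log ((16 * L + 1 : ℕ) : ℝ) ^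
          ((((m + 1 : ℕ) : ℝ) - 3) / (((m + 1 : ℕ) : ℝ) - 2)) *
          Real.log (Real.log ((16 * L + 1 : ℕ) : ℝ)) ^ 2)
        ≤ (17 * (L : ℝ)) ^ s * (K * ((16 * L + 1 : ℕ) : ℝ) ^ ε) :=
          mul_le_mul (pow_le_pow_left₀ (by positivity) hN _) (hK' _ (by omega))
            (Real.exp_pos _).le (by positivity)
      _ ≤ (17 * (L : ℝ)) ^ s * (K * (17 * (L : ℝ)) ^ ε) := by
          have : ((16 * L + 1 : ℕ) : ℝ) ^ ε ≤ (17 * (L : ℝ)) ^ ε :=
            Real.rpow_le_rpow (by positivity) hN hε.le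
          gcongr
      _ = _ := by
          rw [Real.mul_rpow (by norm_num) hL0.le, mul_pow]
          ring
  have h3 := hC1' L hL
  have e1 : (L : ℝ) ^ (2 * (s : ℝ) - ((m + 2 : ℕ) : ℝ) + 1 + ε) =
      (L : ℝ) ^ (∑ j : Fin m, (j.val + 1)) * (L : ℝ) ^ s * (L : ℝ) ^ ε := by
    rw [← pow_add, hexp, Real.rpow_add hL0, ← Real.rpow_natCast (L : ℝ) ((m + 1) ^ 2)]
    congr 2
    have : (2 : ℝ) * s = (m + 1) * (m + 2) := by exact_mod_cast hs2
    push_cast
    rw [this]
    ring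
  calc (rr s (JJ L) (dl (m + 2) h) : ℝ) ≤ _ := h1'
    _ ≤ ((17 ^ s * K * (17 : ℝ) ^ ε) * ((L : ℝ) ^ s * (L : ℝ) ^ ε)) *
        (C1 * (L : ℝ) ^ (∑ j : Fin m, (j.val + 1))) :=
        mul_le_mul h2 h3 (Nat.cast_nonneg _) (by positivity)
    _ = _ := by
        rw [e1]
        ring

end Pool.Agent.H10.KS2
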